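import Mathlib
import Pool.Agent.H.MP_3b1797_co.B

namespace Pool.Agent.Results.MP_3b1797_co.Counter

def IsCutset {P : Type} [PartialOrder P] (K : Set P) : Prop :=
  ∀ C : Set P, IsMaxChain (· ≤ ·) C → (K ∩ C).Nonempty

def IsMinimalCutset {P : Type} [PartialOrder P] (K : Set P) : Prop :=
  IsCutset K ∧ ∀ x ∈ K, ¬ IsCutset (K \ {x})

def IsRegularOrder (P : Type) [PartialOrder P] : Prop :=
  ∀ C : Set P, IsChain (· ≤ ·) C → C.Nonempty →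
    (∃ s, IsLUB C s ∧ ∀ x, x < s → ∃ c ∈ C, x < c) ∧
    (∃ i, IsGLB C i ∧ ∀ x, i < x → ∃ c ∈ C, c < x)

def ContainsN (P : Type) [PartialOrder P] : Prop :=
  ∃ a b c d : P, a ≠ b ∧ a ≠ c ∧ a ≠ d ∧ b ≠ c ∧ b ≠ d ∧ c ≠ d ∧
    a < c ∧ b ⋖ c ∧ b < d ∧ ¬ a ≤ b ∧ ¬ b ≤ a ∧ ¬ a ≤ d ∧ ¬ d ≤ a ∧ ¬ c ≤ d ∧ ¬ d ≤ c

theorem result : ∃ (P : Type) (_ : PartialOrder P), IsRegularOrder P ∧
    (∀ K : Set P, IsMinimalCutset K → IsAntichain (· ≤ ·) K) ∧ ContainsN P :=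
  ⟨H.MP_3b1797_co.P, inferInstance,
    fun C hC hne => ⟨H.MP_3b1797_co.sup_reg C hC hne, H.MP_3b1797_co.inf_reg C hC hne⟩,
    fun _ hK => H.MP_3b1797_co.anti hK.1 hK.2, H.MP_3b1797_co.hasN⟩

end Pool.Agent.Results.MP_3b1797_co.Counter
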